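import Pool.Agent.Y865.SP.Stm

/-!
# The fold lemma for sets of chambers (job SP-COMB)

`e(S)` = number of ordered adjacent pairs in `S`. For a mirror with reflection `r`
`e(foldP S) + e(foldM S) = 2 e(S) + #{w : adj w (r w), exactly one of w, r w is in S}`.
-/

set_option autoImplicit false

namespace Pool.Agent.Y165.SP

open Pool.Agent.Y865.SP

/-- the quadratic form of `a` -/
def ee {Ω : Type} [Fintype Ω] (a : Ω → Ω → ℤ) (s : Ω → ℤ) : ℤ := ∑ w, ∑ w', s w * s w' * a w w'

lemma key {Ω : Type} [Fintype Ω] (r : Ω → Ω) (P : Ω → ℤ) (a : Ω → Ω → ℤ) (s : Ω → ℤ)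
    (hr : ∀ w, r (r w) = w) (hP : ∀ w, P (r w) = 1 - P w) (hP2 : ∀ w, P w * P w = P w)
    (ha : ∀ w w', a (r w) (r w') = a w w')
    (hsup : ∀ w w', w' ≠ r w → (P w * (1 - P w') + (1 - P w) * P w') * a w w' = 0)
    (hs : ∀ w, s w * s w = s w) :
    ee a (fun w => P w * s w + (1 - P w) * s (r w)) +
      ee a (fun w => (1 - P w) * s w + P w * s (r w)) =
    2 * ee a s + ∑ w, a w (r w) * (s w + s (r w) - 2 * (s w * s (r w))) := by
  classical
  have hbij : Function.Involutive r := hr
  -- sums of functions supported on `w' = r w`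
  have hQ : ∀ g : Ω → Ω → ℤ, ∑ w, ∑ w', g w w' * ((P w * (1 - P w') + (1 - P w) * P w') * a w w')
      = ∑ w, g w (r w) * a w (r w) := by
    intro g
    refine Finset.sum_congr rfl fun w _ => ?_
    rw [Finset.sum_eq_single (r w)]
    · rw [hP w]
      have h1 := hP2 w
      have h2 : P w * (1 - (1 - P w)) + (1 - P w) * (1 - P w) = 1 := by linear_combination 2 * h1
      rw [h2, one_mul]
    · intro w' _ hw'
      rw [hsup w w' hw', mul_zero]
    · intro h
      exact absurd (Finset.mem_univ _) h
  have hsub : ∑ w, ∑ w', s (r w) * s (r w') * ((P w * P w' + (1 - P w) * (1 - P w')) * a w w')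
      = ∑ w, ∑ w', s w * s w' * ((P w * P w' + (1 - P w) * (1 - P w')) * a w w') := by
    rw [← Equiv.sum_comp hbij.toPerm]
    refine Finset.sum_congr rfl fun w _ => ?_
    rw [← Equiv.sum_comp hbij.toPerm]
    refine Finset.sum_congr rfl fun w' _ => ?_
    have e1 : (hbij.toPerm : Equiv.Perm Ω) w = r w := rfl
    have e2 : (hbij.toPerm : Equiv.Perm Ω) w' = r w' := rfl
    rw [e1, e2, hr, hr, hP, hP, ha]
    ring
  have hA := hQ (fun w w' => s w * s (r w') + s (r w) * s w')
  have hB := hQ (fun w w' => s w * s w')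
  have hA' : ∑ w, (s w * s (r (r w)) + s (r w) * s (r w)) * a w (r w)
      = ∑ w, (s w + s (r w)) * a w (r w) := by
    refine Finset.sum_congr rfl fun w _ => ?_
    rw [hr, hs, hs]
  rw [hA'] at hA
  have hfin : ∑ w, a w (r w) * (s w + s (r w) - 2 * (s w * s (r w)))
      = ∑ w, (s w + s (r w)) * a w (r w) - 2 * ∑ w, s w * s (r w) * a w (r w) := by
    rw [Finset.mul_sum, ← Finset.sum_sub_distrib]
    exact Finset.sum_congr rfl fun w _ => by ring
  rw [hfin, ← hA, ← hB]
  have hL : ee a (fun w => P w * s w + (1 - P w) * s (r w)) +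
      ee a (fun w => (1 - P w) * s w + P w * s (r w)) =
      ∑ w, ∑ w', s w * s w' * ((P w * P w' + (1 - P w) * (1 - P w')) * a w w') +
      ∑ w, ∑ w', s (r w) * s (r w') * ((P w * P w' + (1 - P w) * (1 - P w')) * a w w') +
      ∑ w, ∑ w', (s w * s (r w') + s (r w) * s w') *
        ((P w * (1 - P w') + (1 - P w) * P w') * a w w') := by
    unfold ee
    simp only [← Finset.sum_add_distrib]
    exact Finset.sum_congr rfl fun w _ => Finset.sum_congr rfl fun w' _ => by ring
  have hR : ee a s = ∑ w, ∑ w', s w * s w' * ((P w * P w' + (1 - P w) * (1 - P w')) * a w w') +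
      ∑ w, ∑ w', s w * s w' * ((P w * (1 - P w') + (1 - P w) * P w') * a w w') := by
    unfold ee
    simp only [← Finset.sum_add_distrib]
    exact Finset.sum_congr rfl fun w _ => Finset.sum_congr rfl fun w' _ => by ring
  rw [hL, hR, hsub]
  ring

/-- the indicator function -/
noncomputable def ind {Ω : Type} (S : Set Ω) (w : Ω) : ℤ := by
  classical exact if w ∈ S then 1 else 0

lemma ind_sq {Ω : Type} (S : Set Ω) (w : Ω) : ind S w * ind S w = ind S w := by
  unfold ind; split_ifs <;> simp

lemma ind_nonneg {Ω : Type} (S : Set Ω) (w : Ω) : 0 ≤ ind S w := by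
  unfold ind; split_ifs <;> simp

lemma ind_of {Ω : Type} {S : Set Ω} {w : Ω} (h : w ∈ S) : ind S w = 1 := by
  unfold ind; rw [if_pos h]

lemma ind_not {Ω : Type} {S : Set Ω} {w : Ω} (h : w ∉ S) : ind S w = 0 := by
  unfold ind; rw [if_neg h]

/-- SP-COMB -/
theorem comb : S_COMB := by
  classical
  intro Ω T _ r side adj hr hside hsym hadj hwall hsep SS hne hfP hfM
  have := Fintype.ofFinite Ω
  let a : Ω → Ω → ℤ := fun w w' => if adj w w' then 1 else 0
  have ha0 : ∀ w w', 0 ≤ a w w' := by
    intro w w'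
    show (0 : ℤ) ≤ if adj w w' then 1 else 0
    split_ifs <;> simp
  have hfin : {S : Set Ω | S ∈ SS ∧ S.Nonempty}.Finite := Set.toFinite _
  obtain ⟨S, ⟨hS, hSne⟩, hmax⟩ := hfin.exists_maximalFor (fun S => ee a (ind S)) _ (by
    obtain ⟨S, hS, hSn⟩ := hne
    exact ⟨S, hS, hSn⟩)
  by_cases hU : S = Set.univ
  · rw [← hU]; exact hS
  exfalso
  obtain ⟨w0, hw0, t, hrw0, hadj0⟩ := hsep S hSne hU
  let P : Ω → ℤ := fun w => if side t w then 1 else 0
  have hPr : ∀ w, P (r t w) = 1 - P w := by
    intro w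
    show (if side t (r t w) then (1 : ℤ) else 0) = 1 - if side t w then 1 else 0
    by_cases h : side t w
    · rw [if_neg (by rw [hside]; exact not_not.2 h), if_pos h]; norm_num
    · rw [if_pos ((hside t w).2 h), if_neg h]; norm_num
  have hP2 : ∀ w, P w * P w = P w := by
    intro w
    show (if side t w then (1 : ℤ) else 0) * (if side t w then (1 : ℤ) else 0) = _
    split_ifs <;> simp_all [P]
  have har : ∀ w w', a (r t w) (r t w') = a w w' := by
    intro w w'
    have h1 : adj (r t w) (r t w') ↔ adj w w' := by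
      constructor
      · intro h
        have := hadj t _ _ h
        rwa [hr, hr] at this
      · exact hadj t w w'
    show (if adj (r t w) (r t w') then (1 : ℤ) else 0) = if adj w w' then 1 else 0
    simp only [h1]
  have hsup : ∀ w w', w' ≠ r t w → (P w * (1 - P w') + (1 - P w) * P w') * a w w' = 0 := by
    intro w w' hne'
    by_cases hA : adj w w'
    · by_cases h1 : side t w <;> by_cases h2 : side t w'
      · simp [P, h1, h2]
      · exact absurd (hwall t w w' hA h1 h2) hne'
      · exfalso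
        have := hwall t w' w (hsym _ _ hA) h2 h1
        apply hne'
        rw [this, hr]
      · simp [P, h1, h2]
    · simp [a, hA]
  have hk := key (r t) P a (ind S) (hr t) hPr hP2 har hsup (ind_sq S)
  have hFP : (fun w => P w * ind S w + (1 - P w) * ind S (r t w)) = ind (foldP (r t) (side t) S) := by
    funext w
    by_cases h1 : side t w <;> by_cases h2 : w ∈ S <;> by_cases h3 : r t w ∈ S <;>
      simp [P, ind, foldP, h1, h2, h3]
  have hFM : (fun w => (1 - P w) * ind S w + P w * ind S (r t w)) = ind (foldM (r t) (side t) S) := by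
    funext w
    by_cases h1 : side t w <;> by_cases h2 : w ∈ S <;> by_cases h3 : r t w ∈ S <;>
      simp [P, ind, foldM, h1, h2, h3]
  rw [hFP, hFM] at hk
  have hpos : 1 ≤ ∑ w, a w (r t w) * (ind S w + ind S (r t w) - 2 * (ind S w * ind S (r t w))) := by
    have hterm : ∀ w ∈ (Finset.univ : Finset Ω),
        0 ≤ a w (r t w) * (ind S w + ind S (r t w) - 2 * (ind S w * ind S (r t w))) := by
      intro w _
      apply mul_nonneg (ha0 _ _)
      by_cases h2 : w ∈ S <;> by_cases h3 : r t w ∈ S <;> simp [ind, h2, h3]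
    refine le_trans (le_of_eq ?_) (Finset.single_le_sum hterm (Finset.mem_univ w0))
    rw [ind_of hw0, ind_not hrw0]
    have : a w0 (r t w0) = 1 := if_pos hadj0
    rw [this]; norm_num
  have hee0 : ∀ S' : Set Ω, 0 ≤ ee a (ind S') := by
    intro S'
    exact Finset.sum_nonneg fun w _ => Finset.sum_nonneg fun w' _ =>
      mul_nonneg (mul_nonneg (ind_nonneg _ _) (ind_nonneg _ _)) (ha0 _ _)
  have hempty : ee a (ind (∅ : Set Ω)) = 0 := by
    unfold ee
    refine Finset.sum_eq_zero fun w _ => Finset.sum_eq_zero fun w' _ => ?_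
    rw [ind_not (Set.notMem_empty w)]; ring
  have hno : ∀ S' ∈ SS, ee a (ind S') ≤ ee a (ind S) := by
    intro S' hS'
    by_contra hcon
    have hlt : ee a (ind S) < ee a (ind S') := not_le.1 hcon
    have hne' : S'.Nonempty := by
      rw [Set.nonempty_iff_ne_empty]
      intro h0
      rw [h0, hempty] at hlt
      exact absurd hlt (not_lt.2 (hee0 S))
    exact absurd (hmax ⟨hS', hne'⟩ hlt.le) (not_le.2 hlt)
  have h1 := hno _ (hfP t S hS)
  have h2 := hno _ (hfM t S hS)
  linarith

end Pool.Agent.Y165.SP
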